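import Pool.Agent.Helper98.EX.Stmts3

set_option autoImplicit false

namespace Pool.Agent.Helper98.EX

open Finset MeasureTheory ProbabilityTheory Filter
open scoped Topology ENNReal

/-- expectation of a product of functions of different sites -/
lemma mom_prod {Ω : Type} [MeasurableSpace Ω] {P : Measure Ω} {X : ℕ → Ω → ℝ} (h : IIDE P X)
    (S : Finset ℕ) (g : ℕ → ℝ → ℝ≥0∞) (hg : ∀ b, Measurable (g b)) :
    ∫⁻ ω, ∏ b ∈ S, g b (X b ω) ∂P = ∏ b ∈ S, ∫⁻ ω, g b (X 0 ω) ∂P := by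
  have h1 : iIndepFun (fun b ω => g b (X b ω)) P := h.indep.comp g hg
  rw [lintegral_prod_eq_prod_lintegral_of_indepFun S (fun b ω => g b (X b ω)) h1
    (fun b => (hg b).comp (h.meas b))]
  refine Finset.prod_congr rfl fun b _ => ?_
  exact ((h.ident b).comp (hg b)).lintegral_eq

/-- the function `(1/t)^s` -/
noncomputable def momA (s : ℝ) (t : ℝ) : ℝ≥0∞ := ENNReal.ofReal ((1 / t) ^ s)

/-- the function `((1-t)/t)^s` -/
noncomputable def momB (s : ℝ) (t : ℝ) : ℝ≥0∞ := ENNReal.ofReal (((1 - t) / t) ^ s)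

lemma momA_meas (s : ℝ) : Measurable (momA s) := by unfold momA; fun_prop
lemma momB_meas (s : ℝ) : Measurable (momB s) := by unfold momB; fun_prop

lemma mom_inv {Ω : Type} [MeasurableSpace Ω] {P : Measure Ω} {X : ℕ → Ω → ℝ} {s θ : ℝ}
    (h : IIDE P X) (hs : 1 ≤ s) (hθ0 : 0 < θ) (hθ1 : θ < 1)
    (hM : Mom P X s ≤ ENNReal.ofReal θ) :
    ∫⁻ ω, momA s (X 0 ω) ∂P ≤ ENNReal.ofReal (2 ^ s * 2) := by
  have := h.prob
  have hs0 : 0 ≤ s := by linarith
  have hpt : ∀ ω, momA s (X 0 ω) ≤ ENNReal.ofReal (2 ^ s) + ENNReal.ofReal (2 ^ s) *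
      ENNReal.ofReal (((1 - X 0 ω) / X 0 ω) ^ s) := by
    intro ω
    obtain ⟨h0, h1⟩ := h.rng 0 ω
    set t := X 0 ω
    have hρ : 0 ≤ (1 - t) / t := div_nonneg (by linarith) h0.le
    have h2s : (0 : ℝ) ≤ 2 ^ s := by positivity
    rw [← ENNReal.ofReal_mul h2s, ← ENNReal.ofReal_add h2s (by positivity)]
    unfold momA
    apply ENNReal.ofReal_le_ofReal
    have e : 1 / t = 1 + (1 - t) / t := by field_simp; ring
    rw [e]
    rcases le_total ((1 - t) / t) 1 with h3 | h3
    · have h4 : (1 + (1 - t) / t) ^ s ≤ 2 ^ s := by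
        apply Real.rpow_le_rpow (by positivity) _ hs0
        linarith
      have h5 : 0 ≤ (2 : ℝ) ^ s * ((1 - t) / t) ^ s := by positivity
      linarith
    · have h4 : (1 + (1 - t) / t) ^ s ≤ (2 * ((1 - t) / t)) ^ s := by
        apply Real.rpow_le_rpow (by positivity) _ hs0
        linarith
      rw [Real.mul_rpow (by norm_num) hρ] at h4
      linarith
  have h2 : ∫⁻ ω, momA s (X 0 ω) ∂P ≤ ∫⁻ ω, (ENNReal.ofReal (2 ^ s) + ENNReal.ofReal (2 ^ s) *
      ENNReal.ofReal (((1 - X 0 ω) / X 0 ω) ^ s)) ∂P := lintegral_mono hpt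
  have hmeas : Measurable (fun ω => ENNReal.ofReal (((1 - X 0 ω) / X 0 ω) ^ s)) := by
    have := h.meas 0
    fun_prop
  rw [lintegral_add_left measurable_const,
    lintegral_const_mul _ hmeas, lintegral_const, measure_univ, mul_one] at h2
  refine h2.trans ?_
  have h3 : ENNReal.ofReal (2 ^ s) * ∫⁻ ω, ENNReal.ofReal (((1 - X 0 ω) / X 0 ω) ^ s) ∂P ≤
      ENNReal.ofReal (2 ^ s) * ENNReal.ofReal θ := mul_le_mul_right hM _
  have h4 : ENNReal.ofReal ((2 : ℝ) ^ s) * ENNReal.ofReal θ ≤ ENNReal.ofReal (2 ^ s) := by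
    rw [← ENNReal.ofReal_mul (by positivity)]
    apply ENNReal.ofReal_le_ofReal
    have : (0 : ℝ) < 2 ^ s := by positivity
    nlinarith
  calc _ ≤ ENNReal.ofReal (2 ^ s) + ENNReal.ofReal (2 ^ s) := by gcongr; exact h3.trans h4
    _ = _ := by rw [← ENNReal.ofReal_add (by positivity) (by positivity)]; congr 1; ring

lemma mom_RR_div (w : ℕ → ℝ) (z : ℕ) (d : ℕ) :
    RR (rE w) (lE w) z (z + d) / w (z + d) =
      1 / w z * ∏ b ∈ Finset.Ioc z (z + d), (1 - w b) / w b := by
  induction d with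
  | zero => simp [RR]
  | succ d ih =>
    have h1 : Finset.Ioc z (z + (d + 1)) = insert (z + (d + 1)) (Finset.Ioc z (z + d)) := by
      ext b; simp only [Finset.mem_Ioc, Finset.mem_insert]; omega
    have h2 : (z + (d + 1)) ∉ Finset.Ioc z (z + d) := by simp
    have h3 : RR (rE w) (lE w) z (z + (d + 1)) =
        (1 - w (z + (d + 1))) / w (z + d) * RR (rE w) (lE w) z (z + d) := by
      unfold RR
      rw [h1, Finset.prod_insert h2]
      rfl
    rw [h1, Finset.prod_insert h2, h3]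
    have e : (1 - w (z + (d + 1))) / w (z + d) * RR (rE w) (lE w) z (z + d) / w (z + (d + 1)) =
        (1 - w (z + (d + 1))) / w (z + (d + 1)) * (RR (rE w) (lE w) z (z + d) / w (z + d)) := by
      ring
    rw [e, ih]
    ring

lemma mom_RR_succ (w : ℕ → ℝ) (z : ℕ) (d : ℕ) :
    RR (rE w) (lE w) z (z + (d + 1)) =
        (1 - w (z + (d + 1))) * (RR (rE w) (lE w) z (z + d) / w (z + d)) := by
  have h1 : Finset.Ioc z (z + (d + 1)) = insert (z + (d + 1)) (Finset.Ioc z (z + d)) := by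
    ext b; simp only [Finset.mem_Ioc, Finset.mem_insert]; omega
  have h2 : (z + (d + 1)) ∉ Finset.Ioc z (z + d) := by simp
  unfold RR
  rw [h1, Finset.prod_insert h2]
  have : lE w (z + (d + 1)) / rE w (z + (d + 1)) = (1 - w (z + (d + 1))) / w (z + d) := rfl
  rw [this]
  ring

lemma mom_RR_nonneg (w : ℕ → ℝ) (hw : ∀ x, 0 < w x ∧ w x ≤ 1) (z x : ℕ) :
    0 ≤ RR (rE w) (lE w) z x := by
  unfold RR
  refine Finset.prod_nonneg fun b _ => div_nonneg ?_ (hw _).1.le
  have := (hw b).2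
  simp only [lE]
  linarith

/-- the basic quantity -/
lemma mom_main {Ω : Type} [MeasurableSpace Ω] {P : Measure Ω} {X : ℕ → Ω → ℝ} {s θ : ℝ}
    (h : IIDE P X) (hs : 1 ≤ s) (hθ0 : 0 < θ) (hθ1 : θ < 1)
    (hM : Mom P X s ≤ ENNReal.ofReal θ) (z d : ℕ) :
    ∫⁻ ω, ENNReal.ofReal ((RR (rE (EE X ω)) (lE (EE X ω)) z (z + d) / X (z + d) ω) ^ s) ∂P ≤
      ENNReal.ofReal (2 ^ s * 2 * θ ^ d) ∧
    (1 ≤ z → ∫⁻ ω, ENNReal.ofReal ((RR (rE (EE X ω)) (lE (EE X ω)) z (z + d) / X (z + d) ω /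
      X (z - 1) ω) ^ s) ∂P ≤ ENNReal.ofReal ((2 ^ s * 2) ^ 2 * θ ^ d)) := by
  have hK := mom_inv h hs hθ0 hθ1 hM
  have hs0 : 0 ≤ s := by linarith
  have hexp : ∀ ω, ENNReal.ofReal ((RR (rE (EE X ω)) (lE (EE X ω)) z (z + d) / X (z + d) ω) ^ s) =
      momA s (X z ω) * ∏ b ∈ Finset.Ioc z (z + d), momB s (X b ω) := by
    intro ω
    have hnn : ∀ b, 0 ≤ (1 - X b ω) / X b ω := fun b =>
      div_nonneg (by linarith [(h.rng b ω).2]) (h.rng b ω).1.le
    have e := mom_RR_div (EE X ω) z d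
    have e' : RR (rE (EE X ω)) (lE (EE X ω)) z (z + d) / X (z + d) ω =
      1 / X z ω * ∏ b ∈ Finset.Ioc z (z + d), (1 - X b ω) / X b ω := e
    rw [e', Real.mul_rpow (div_nonneg zero_le_one (h.rng z ω).1.le)
      (Finset.prod_nonneg fun b _ => hnn b), ENNReal.ofReal_mul
      (Real.rpow_nonneg (div_nonneg zero_le_one (h.rng z ω).1.le) _),
      ← Real.finset_prod_rpow _ _ (fun b _ => hnn b),
      ENNReal.ofReal_prod_of_nonneg (fun b _ => Real.rpow_nonneg (hnn b) _)]
    rfl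
  have hcard : (Finset.Ioc z (z + d)).card = d := by simp
  have hprodB : ∏ _b ∈ Finset.Ioc z (z + d), ∫⁻ ω, momB s (X 0 ω) ∂P ≤
      ENNReal.ofReal (θ ^ d) := by
    rw [Finset.prod_const, hcard, ENNReal.ofReal_pow hθ0.le]
    exact pow_le_pow_left' hM d
  constructor
  · simp only [hexp]
    have hzn : z ∉ Finset.Ioc z (z + d) := by simp
    have e2 : ∀ ω, momA s (X z ω) * ∏ b ∈ Finset.Ioc z (z + d), momB s (X b ω) =
        ∏ b ∈ insert z (Finset.Ioc z (z + d)), (if b = z then momA s else momB s) (X b ω) := by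
      intro ω
      rw [Finset.prod_insert hzn, if_pos rfl]
      congr 1
      refine Finset.prod_congr rfl fun b hb => ?_
      rw [if_neg]
      rintro rfl
      exact hzn hb
    simp only [e2]
    rw [mom_prod h _ (fun b => if b = z then momA s else momB s) (by
      intro b; split_ifs; exacts [momA_meas s, momB_meas s]),
      Finset.prod_insert hzn, if_pos rfl]
    have e3 : ∏ b ∈ Finset.Ioc z (z + d), ∫⁻ ω, (if b = z then momA s else momB s) (X 0 ω) ∂P =
        ∏ _b ∈ Finset.Ioc z (z + d), ∫⁻ ω, momB s (X 0 ω) ∂P := by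
      refine Finset.prod_congr rfl fun b hb => ?_
      rw [if_neg]
      rintro rfl
      exact hzn hb
    rw [e3, ENNReal.ofReal_mul (p := 2 ^ s * 2) (by positivity)]
    exact mul_le_mul' hK hprodB
  · intro hz
    have hexp2 : ∀ ω, ENNReal.ofReal ((RR (rE (EE X ω)) (lE (EE X ω)) z (z + d) / X (z + d) ω /
      X (z - 1) ω) ^ s) = momA s (X (z - 1) ω) * (momA s (X z ω) *
        ∏ b ∈ Finset.Ioc z (z + d), momB s (X b ω)) := by
      intro ω
      rw [← hexp ω]
      have hnn : 0 ≤ RR (rE (EE X ω)) (lE (EE X ω)) z (z + d) / X (z + d) ω :=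
        div_nonneg (mom_RR_nonneg _ (fun x => h.rng x ω) _ _) (h.rng _ ω).1.le
      have h1 : 0 ≤ 1 / X (z - 1) ω := div_nonneg zero_le_one (h.rng _ ω).1.le
      rw [div_eq_mul_one_div _ (X (z - 1) ω), Real.mul_rpow hnn h1,
        ENNReal.ofReal_mul (Real.rpow_nonneg hnn _), mul_comm]
      rfl
    simp only [hexp2]
    have hzn : z ∉ Finset.Ioc z (z + d) := by simp
    have hzn1 : z - 1 ∉ insert z (Finset.Ioc z (z + d)) := by
      simp only [Finset.mem_insert, Finset.mem_Ioc]; omega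
    have hzz : z ≠ z - 1 := by omega
    have e2 : ∀ ω, momA s (X (z - 1) ω) * (momA s (X z ω) *
        ∏ b ∈ Finset.Ioc z (z + d), momB s (X b ω)) =
        ∏ b ∈ insert (z - 1) (insert z (Finset.Ioc z (z + d))),
          (if b ≤ z then momA s else momB s) (X b ω) := by
      intro ω
      rw [Finset.prod_insert hzn1, Finset.prod_insert hzn, if_pos (by omega), if_pos le_rfl]
      congr 2
      refine Finset.prod_congr rfl fun b hb => ?_
      rw [if_neg]
      rw [Finset.mem_Ioc] at hb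
      omega
    simp only [e2]
    rw [mom_prod h _ (fun b => if b ≤ z then momA s else momB s) (by
      intro b; split_ifs; exacts [momA_meas s, momB_meas s]),
      Finset.prod_insert hzn1, Finset.prod_insert hzn, if_pos (by omega), if_pos le_rfl]
    have e3 : ∏ b ∈ Finset.Ioc z (z + d), ∫⁻ ω, (if b ≤ z then momA s else momB s) (X 0 ω) ∂P =
        ∏ _b ∈ Finset.Ioc z (z + d), ∫⁻ ω, momB s (X 0 ω) ∂P := by
      refine Finset.prod_congr rfl fun b hb => ?_
      rw [if_neg]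
      rw [Finset.mem_Ioc] at hb
      omega
    rw [e3, sq, mul_assoc (2 ^ s * 2), ENNReal.ofReal_mul (p := 2 ^ s * 2) (by positivity),
      ENNReal.ofReal_mul (p := 2 ^ s * 2) (by positivity)]
    exact mul_le_mul' hK (mul_le_mul' hK hprodB)

theorem st_MOM : ST_MOM := by
  intro Ω _ P X s θ h hs hθ0 hθ1 hM
  have := h.prob
  have hs0 : 0 ≤ s := by linarith
  set K : ℝ := 2 ^ s * 2 with hK
  have hK1 : 1 ≤ K := by
    have : (1 : ℝ) ≤ 2 ^ s := Real.one_le_rpow (by norm_num) hs0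
    linarith
  have hKθ : 1 ≤ K / θ := by rw [le_div_iff₀ hθ0]; linarith
  have hK2 : K ≤ K ^ 2 / θ := by
    rw [le_div_iff₀ hθ0]; nlinarith
  have hK3 : K / θ ≤ K ^ 2 / θ := by
    apply div_le_div_of_nonneg_right _ hθ0.le
    nlinarith
  refine ⟨K ^ 2 / θ, by positivity, ?_⟩
  intro z x hzx
  obtain ⟨d, rfl⟩ := Nat.exists_eq_add_of_le hzx
  have hd : z + d - z = d := by omega
  rw [hd]
  have hθd : 0 < θ ^ d := by positivity
  refine ⟨?_, ?_, ?_⟩
  · rcases d with _ | d
    · have : ∀ ω, RR (rE (EE X ω)) (lE (EE X ω)) z (z + 0) = 1 := fun ω => by simp [RR]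
      simp only [this, Real.one_rpow, lintegral_const, measure_univ, mul_one]
      apply ENNReal.ofReal_le_ofReal
      rw [pow_zero, mul_one]
      linarith
    · have h1 := (mom_main h hs hθ0 hθ1 hM z d).1
      refine le_trans (lintegral_mono ?_) (h1.trans ?_)
      · intro ω
        apply ENNReal.ofReal_le_ofReal
        have hnn : 0 ≤ RR (rE (EE X ω)) (lE (EE X ω)) z (z + d) / X (z + d) ω :=
          div_nonneg (mom_RR_nonneg _ (fun x => h.rng x ω) _ _) (h.rng _ ω).1.le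
        apply Real.rpow_le_rpow (mom_RR_nonneg _ (fun x => h.rng x ω) _ _) _ hs0
        rw [mom_RR_succ]
        have h2 := (h.rng (z + (d + 1)) ω).1
        have h3 := (h.rng (z + (d + 1)) ω).2
        show (1 - X (z + (d + 1)) ω) * (RR (rE (EE X ω)) (lE (EE X ω)) z (z + d) / X (z + d) ω) ≤ _
        nlinarith
      · apply ENNReal.ofReal_le_ofReal
        rw [pow_succ θ d]
        have : K ^ 2 / θ * (θ ^ d * θ) = K ^ 2 * θ ^ d := by field_simp
        rw [this]
        have hp : 0 < θ ^ d := by positivity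
        have hK4 : K ≤ K ^ 2 := by nlinarith
        exact mul_le_mul_of_nonneg_right hK4 hp.le
  · have h1 := (mom_main h hs hθ0 hθ1 hM z d).1
    refine h1.trans ?_
    apply ENNReal.ofReal_le_ofReal
    nlinarith
  · intro hz
    rcases d with _ | d
    · have h1 := (mom_main h hs hθ0 hθ1 hM (z - 1) 0).1
      have h2 : ∀ ω, (RR (rE (EE X ω)) (lE (EE X ω)) z (z + 0) / X (z - 1) ω) =
          (RR (rE (EE X ω)) (lE (EE X ω)) (z - 1) (z - 1 + 0) / X (z - 1 + 0) ω) := fun ω => by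
        simp [RR]
      simp only [h2]
      refine h1.trans ?_
      apply ENNReal.ofReal_le_ofReal
      simp only [pow_zero, mul_one]
      exact hK2
    · have h1 := (mom_main h hs hθ0 hθ1 hM z d).2 hz
      refine le_trans (lintegral_mono ?_) (h1.trans ?_)
      · intro ω
        apply ENNReal.ofReal_le_ofReal
        have hnn : 0 ≤ RR (rE (EE X ω)) (lE (EE X ω)) z (z + d) / X (z + d) ω :=
          div_nonneg (mom_RR_nonneg _ (fun x => h.rng x ω) _ _) (h.rng _ ω).1.le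
        apply Real.rpow_le_rpow (div_nonneg (mom_RR_nonneg _ (fun x => h.rng x ω) _ _)
          (h.rng _ ω).1.le) _ hs0
        apply div_le_div_of_nonneg_right _ (h.rng _ ω).1.le
        rw [mom_RR_succ]
        have h2 := (h.rng (z + (d + 1)) ω).1
        have h3 := (h.rng (z + (d + 1)) ω).2
        show (1 - X (z + (d + 1)) ω) * (RR (rE (EE X ω)) (lE (EE X ω)) z (z + d) / X (z + d) ω) ≤ _
        nlinarith
      · apply ENNReal.ofReal_le_ofReal
        rw [pow_succ θ d]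
        have : K ^ 2 / θ * (θ ^ d * θ) = K ^ 2 * θ ^ d := by field_simp
        rw [this]

end Pool.Agent.Helper98.EX
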